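import Pool.Agent.Lib.MP_ef3f0f_gt.Z.Defs

set_option autoImplicit false

/-!
# MP_ef3f0f_gt, Part 0: the statements

Modules `Z/X.lean`: `theorem tX : S_Y P H → ... → S_X P H`, in a section with the same `variable` line
(explicit `P H`), namespace `Pool.Agent.MPEF`.
-/

namespace Pool.Agent.MPEF

open MeasureTheory Topology
open scoped ENNReal Pointwise

section General

/-- A discrete subgroup of a locally compact Hausdorff group meets a compact set in a finite set.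
Proof. `Γ` is closed (Mathlib: `Subgroup.isClosed_of_discrete`), so `Γ ∩ K` is compact and discrete. -/
def S_disc : Prop :=
  ∀ (G : Type) [Group G] [TopologicalSpace G] [IsTopologicalGroup G] [LocallyCompactSpace G]
    [T2Space G] (Γ : Subgroup G), DiscreteTopology Γ →
    ∀ K : Set G, IsCompact K → {γ : G | γ ∈ Γ ∧ γ ∈ K}.Finite

/-- The cutoff function. Proof. `G ⧸ Γ` compact and `G` locally compact: there is a compact `K₀` with
`K₀ Γ = G` (images of the interiors of compact neighbourhoods are open and cover the quotient), so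
`K = K₀⁻¹` satisfies `Γ K = G`. `Γ` is countable (`S_disc` and `G` σ-compact). Put
`n(x) = #{γ ∈ Γ | γ x ∈ K}`, `1 ≤ n(x) < ∞` (`γ ∈ K x⁻¹` compact), `χ = 1_K / n`; `n` is measurable (a countable
sum of indicators) and `Γ`-invariant, so `∑ χ (γ x) = 1`. -/
def S_chi : Prop :=
  ∀ (G : Type) [Group G] [TopologicalSpace G] [IsTopologicalGroup G] [LocallyCompactSpace G]
    [T2Space G] [SecondCountableTopology G] [MeasurableSpace G] [BorelSpace G]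
    (Γ : Subgroup G), DiscreteTopology Γ → CompactSpace (G ⧸ Γ) →
    Countable Γ ∧ ∃ χ : G → ℝ≥0∞, Measurable χ ∧ (∀ x, χ x ≤ 1) ∧
      (∃ K : Set G, IsCompact K ∧ ∀ x, x ∉ K → χ x = 0) ∧
      ∀ x, ∑' γ : Γ, χ ((γ : G) * x) = 1

/-- Unimodularity. Proof. For `f ≥ 0` measurable and `Γ`-invariant and `g ∈ G`:
`∫ χ(x g⁻¹) f(x) = ∫ ∑_γ χ(γ x) χ(x g⁻¹) f(x) = ∑_γ ∫ χ(x) χ(γ⁻¹ x g⁻¹) f(x) = ∫ χ f` (left invariance; the last sum is
`1`). With `f = 1`: `∫ χ(x g⁻¹) dμ = ∫ χ dμ`, which is positive and finite. The image of `μ` under the right translation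
is a left Haar measure, so a multiple of `μ` (uniqueness, `G` second countable), and the multiple is `1`. -/
def S_unim : Prop :=
  ∀ (G : Type) [Group G] [TopologicalSpace G] [IsTopologicalGroup G] [LocallyCompactSpace G]
    [T2Space G] [SecondCountableTopology G] [MeasurableSpace G] [BorelSpace G]
    (Γ : Subgroup G) (χ : G → ℝ≥0∞) (μ : Measure G), Countable Γ → Measurable χ →
    (∀ x, χ x ≤ 1) → (∃ K : Set G, IsCompact K ∧ ∀ x, x ∉ K → χ x = 0) →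
    (∀ x, ∑' γ : Γ, χ ((γ : G) * x) = 1) → μ.IsHaarMeasure →
    μ.IsMulRightInvariant ∧ 0 < ∫⁻ x, χ x ∂μ ∧ ∫⁻ x, χ x ∂μ ≠ ∞

/-- Factors of a unimodular product. Proof. Right invariance of `μ₁ × μ₂` on products `A × B`, `B` fixed with
`0 < μ₂ B < ∞`. A left and right invariant Haar measure is inversion invariant: the inverse measure is
left invariant, so `= c μ`; evaluate at a symmetric compact neighbourhood of `1`. -/
def S_prodinv : Prop :=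
  ∀ (P H : Type) [Group P] [Group H] [TopologicalSpace P] [TopologicalSpace H]
    [IsTopologicalGroup P] [IsTopologicalGroup H] [LocallyCompactSpace P] [LocallyCompactSpace H]
    [T2Space P] [T2Space H] [SecondCountableTopology P] [SecondCountableTopology H]
    [MeasurableSpace P] [MeasurableSpace H] [BorelSpace P] [BorelSpace H]
    (μ₁ : Measure P) (μ₂ : Measure H), μ₁.IsHaarMeasure → μ₂.IsHaarMeasure →
    (μ₁.prod μ₂).IsMulRightInvariant →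
    μ₁.IsMulRightInvariant ∧ μ₂.IsMulRightInvariant ∧ μ₁.IsInvInvariant ∧ μ₂.IsInvInvariant

/-- The density `ν`. Proof. Let `K` be a compact generating set; Urysohn: `f : H → [0,1]` continuous with
compact support, `f = 1` on `K ∪ {1}`; `ν = c (f(h) + f(h⁻¹))`. `O = {ν > 0}` contains `K` and `1` and is symmetric, so
`⋃ O^n` is the subgroup generated by `O`, which is `H`. -/
def S_nuEx : Prop :=
  ∀ (H : Type) [Group H] [TopologicalSpace H] [IsTopologicalGroup H] [LocallyCompactSpace H]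
    [T2Space H] [SecondCountableTopology H] [MeasurableSpace H] [BorelSpace H]
    (μ : Measure H), μ.IsHaarMeasure → μ.IsInvInvariant →
    (∃ K : Set H, IsCompact K ∧ Subgroup.closure K = ⊤) →
    ∃ ν : H → ℝ≥0∞, Continuous ν ∧ (∀ h, ν h ≠ ∞) ∧ (∀ h, ν h⁻¹ = ν h) ∧ 0 < ν 1 ∧
      ∫⁻ h, ν h ∂μ = 1 ∧ (∃ K : Set H, IsCompact K ∧ ∀ h, h ∉ K → ν h = 0) ∧
      ∀ h : H, ∃ n : ℕ, h ∈ ({h | 0 < ν h} : Set H) ^ n

end General

variable (P H : Type) [Group P] [Group H] [TopologicalSpace P] [TopologicalSpace H]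
  [IsTopologicalGroup P] [IsTopologicalGroup H] [LocallyCompactSpace P] [LocallyCompactSpace H]
  [T2Space P] [T2Space H] [SecondCountableTopology P] [SecondCountableTopology H]
  [MeasurableSpace P] [MeasurableSpace H] [BorelSpace P] [BorelSpace H]

/-- Existence of the data. Proof. `S_disc`, `S_chi` for `G = P × H`; `μ₁`, `μ₂` Haar measures, `μ₂` rescaled such that the
total mass `∫ χ` is `1`; `S_unim`, `S_prodinv`, `S_nuEx`. -/
def S_Dat : Prop :=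
  ∀ Γ : Subgroup (P × H), DiscreteTopology Γ → CompactSpace ((P × H) ⧸ Γ) →
    Dense (Prod.fst '' (Γ : Set (P × H))) →
    (∃ K : Set H, IsCompact K ∧ Subgroup.closure K = ⊤) →
    ∃ D : Dat P H, D.Ok ∧ D.Γ = Γ

/-- Basic instances for the data. Proof: Haar measures on a second countable locally compact group are
σ-finite; `Γ` is countable by `disc` and σ-compactness; products of Haar measures. The covering: some
`χ (γ x) ≠ 0`. -/
def S_inst : Prop :=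
  ∀ D : Dat P H, D.Ok →
    SigmaFinite D.μ₁ ∧ SigmaFinite D.μ₂ ∧ SigmaFinite D.μ ∧ Countable D.Γ ∧
    D.μ.IsHaarMeasure ∧ D.μ.IsMulLeftInvariant ∧ D.μ.IsMulRightInvariant ∧ D.μ.IsInvInvariant ∧
    ∃ K : Set (P × H), IsCompact K ∧ ∀ x : P × H, ∃ γ ∈ D.Γ, γ * x ∈ K

/-- The set `O = {ν > 0}`. Proof. Open, symmetric, contains `1`; `closure (O^m) ⊆ O^(m+1)` as `O` is a symmetric
neighbourhood of `1`; it is contained in the support of `ν`. -/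
def S_O : Prop :=
  ∀ D : Dat P H, D.Ok →
    (∀ n, 1 ≤ n → IsOpen (D.O ^ n)) ∧ (∀ n, (1 : H) ∈ D.O ^ n) ∧
    (∀ n, ∀ h ∈ D.O ^ n, h⁻¹ ∈ D.O ^ n) ∧ (∀ m n, m ≤ n → D.O ^ m ⊆ D.O ^ n) ∧
    (∀ n, closure (D.O ^ n) ⊆ D.O ^ (n + 1)) ∧ (∀ n, IsCompact (closure (D.O ^ n))) ∧
    (∀ K : Set H, IsCompact K → ∃ n, K ⊆ D.O ^ n)

/-- The convolution powers. Proof. Tonelli and invariance. Lower semicontinuity: Fatou. Positivity: the
set `{q ∈ O | q⁻¹ h ∈ O^n}` is open, and nonempty iff `h ∈ O^(n+1)`. Symmetry: by induction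
`ν * ν^(n) = ν^(n) * ν` (associativity), and `(f * g)^∨ = g^∨ * f^∨` (inversion invariance of `μ₂`). Bound: `∫ ν = 1`. -/
def S_nu : Prop :=
  ∀ D : Dat P H, D.Ok →
    (∀ n, Measurable (D.nu n)) ∧ (∀ n, LowerSemicontinuous (D.nu n)) ∧
    (∀ n, 1 ≤ n → ∀ h, 0 < D.nu n h ↔ h ∈ D.O ^ n) ∧
    (∀ n h, D.nu n h⁻¹ = D.nu n h) ∧ (∀ n, ∫⁻ h, D.nu n h ∂D.μ₂ = 1) ∧
    (∀ n m, 1 ≤ n → 1 ≤ m → ∀ h,
      ∫⁻ q, D.nu n q * D.nu m (q⁻¹ * h) ∂D.μ₂ = D.nu (n + m) h) ∧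
    (∃ C : ℝ≥0∞, C ≠ ∞ ∧ ∀ n h, D.nu n h ≤ C) ∧
    (∀ n, ∃ K : Set H, IsCompact K ∧ ∀ h, h ∉ K → D.nu n h = 0)

/-- **Harnack.** Proof. For `p` in the support of `ν` (in `closure O ⊆ O²`) and `q ∈ O^c`: `p q ∈ closure (O^(c+1))`, a
compact subset of `O^(c+2)`, on which the lower semicontinuous function `ν^(c+2)` is positive, so `≥ ε`. So
`ν p ≤ C ν^(c+2) (p q)` for all `p`. Convolve with `ν^(n-1)` on the left (`n ≥ 2`). The second one by symmetry. -/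
def S_Harn : Prop :=
  ∀ D : Dat P H, D.Ok → ∀ c : ℕ, ∃ C : ℝ≥0∞, C ≠ ∞ ∧ ∀ n, 1 ≤ n → ∀ h q : H, q ∈ D.O ^ c →
    D.nu n h ≤ C * D.nu (n + c + 1) (h * q) ∧ D.nu n h ≤ C * D.nu (n + c + 1) (q * h)

/-- **Unfolding.** Proof. `∫ χ(x) ∑_γ f(γ x) = ∑_γ ∫ χ(γ⁻¹ x) f(x) = ∫ f`. -/
def S_unf : Prop :=
  ∀ D : Dat P H, D.Ok → ∀ f : P × H → ℝ≥0∞, Measurable f →
    D.IM (fun x => ∑' γ : D.Γ, f ((γ : P × H) * x)) = ∫⁻ x, f x ∂D.μ

/-- `IM` of invariant functions. Proof. (1) shift: as in `S_unim`: `∫ χ(x) f(x g) = ∫ χ(x g⁻¹) f(x) = ∫ χ f`. (2) `∫_K f =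
∫ ∑_γ χ(γ x) 1_K(x) f(x) = ∫ χ(x) f(x) #{γ | γ x ∈ K}`, and the number of `γ ∈ Γ` with `γ x ∈ K`, `χ x ≠ 0` is bounded
(`γ ∈ K K'⁻¹`). (3) the set of all `x` is covered by the translates of the support of `χ`, `IM f ≤ ∫_{K'} f`. -/
def S_IM : Prop :=
  ∀ D : Dat P H, D.Ok →
    (∀ f : P × H → ℝ≥0∞, Measurable f → (∀ γ ∈ D.Γ, ∀ x, f (γ * x) = f x) → ∀ g : P × H,
      D.IM (fun x => f (x * g)) = D.IM f) ∧
    (∀ K : Set (P × H), IsCompact K → ∃ C : ℝ≥0∞, C ≠ ∞ ∧ ∀ f : P × H → ℝ≥0∞, Measurable f →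
      (∀ γ ∈ D.Γ, ∀ x, f (γ * x) = f x) → ∫⁻ x in K, f x ∂D.μ ≤ C * D.IM f) ∧
    (∃ K : Set (P × H), IsCompact K ∧ ∀ f : P × H → ℝ≥0∞, Measurable f →
      D.IM f ≤ ∫⁻ x in K, f x ∂D.μ) ∧
    (∀ χ' : P × H → ℝ≥0∞, Measurable χ' → (∀ x, ∑' γ : D.Γ, χ' ((γ : P × H) * x) = 1) →
      ∀ f : P × H → ℝ≥0∞, Measurable f → (∀ γ ∈ D.Γ, ∀ x, f (γ * x) = f x) →
      ∫⁻ x, χ' x * f x ∂D.μ = D.IM f)

/-- **(Up).** Proof. `n = 1`: by invariance (`N K (γ x) y = N K x y`) `x` in a compact set `F` with `Γ F = G`; the `u` with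
`x⁻¹ u y ∈ Z` (`Z` the compact support): if `u₀` is one of them then `u u₀⁻¹ ∈ (F Z)(F Z)⁻¹`, a compact set,
finitely many. General `n`: `N (tk k n) x y = ∫ ν^(n-1)(h) N (tk k 1) x (y (1,h)) dh` (symmetry of `ν`). -/
def S_Up : Prop :=
  ∀ D : Dat P H, D.Ok → ∀ k : P → ℝ≥0∞, Measurable k → (∃ C : ℝ≥0∞, C ≠ ∞ ∧ ∀ g, k g ≤ C) →
    (∃ K : Set P, IsCompact K ∧ ∀ g, g ∉ K → k g = 0) →
    ∃ C : ℝ≥0∞, C ≠ ∞ ∧ ∀ n x y, D.N (D.tk k n) x y ≤ C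

/-- **(Lo).** Proof. For fixed `(x, y)` by density there is `u ∈ Γ` with `x₁⁻¹ u₁ y₁ ∈ U`, and then `x₂⁻¹ u₂ y₂ ∈ O^n` for
large `n`. These are open conditions on `(x, y)`; by invariance in `x` and `y` under `Γ` it is enough to consider `(x, y)` in a compact
set `F × F`; so one `b` and finitely many `u` suffice, and there `c₀ ν^(b)(x₂⁻¹u₂y₂)` is bounded below locally (lower
semicontinuity). `n ≥ b`: `N (tk k n) x y = ∫ ν^(n-b)(h) N (tk k b) x (y (1,h)) dh`. Translates: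
`N (tk (k (q · q')) n) x y = N (tk k n) (x (q⁻¹,1)) (y (q',1))`. -/
def S_Lo : Prop :=
  ∀ D : Dat P H, D.Ok → ∀ (k : P → ℝ≥0∞) (U : Set P) (c₀ : ℝ≥0∞), Measurable k → IsOpen U →
    U.Nonempty → 0 < c₀ → (∀ g ∈ U, c₀ ≤ k g) →
    ∃ (b : ℕ) (c : ℝ≥0∞), 1 ≤ b ∧ 0 < c ∧ ∀ n, b ≤ n → ∀ (q q' : P) (x y : P × H),
      c ≤ D.N (D.tk (fun g => k (q * g * q')) n) x y

/-- Invariance and merging. `cv` is the convolution.
Proof. (1)-(3): reindex `u ↦ γ⁻¹ u`, `u ↦ u γ`. (4) unfold: put `e' = e⁻¹ u`: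
`∫ χ(z) ∑_e K(x⁻¹ e z) K'(z⁻¹ e⁻¹ u y) dz = ∫ K(x⁻¹ z) K'(z⁻¹ u y) dz = (K * K')(x⁻¹ u y)`. (5) Tonelli. (6) `q = g h`, symmetry of
`ν^(m)`. -/
def S_mg : Prop :=
  ∀ D : Dat P H, D.Ok →
    (∀ (K : P × H → ℝ≥0∞) (x y : P × H) (γ : D.Γ), D.N K ((γ : P × H) * x) y = D.N K x y) ∧
    (∀ (K : P × H → ℝ≥0∞) (x y : P × H) (γ : D.Γ), D.N K x ((γ : P × H) * y) = D.N K x y) ∧
    (∀ K : P × H → ℝ≥0∞, Measurable K →
      Measurable fun q : (P × H) × (P × H) => D.N K q.1 q.2) ∧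
    (∀ K K' : P × H → ℝ≥0∞, Measurable K → Measurable K' → ∀ (x y : P × H) (F : D.Γ → ℝ≥0∞),
      D.IM (fun z => ∑' e : D.Γ, ∑' e' : D.Γ,
        K (x⁻¹ * (e : P × H) * z) * K' (z⁻¹ * (e' : P × H) * y) * F (e * e')) =
      ∑' u : D.Γ, (∫⁻ q, K q * K' (q⁻¹ * (x⁻¹ * (u : P × H) * y)) ∂D.μ) * F u) ∧
    (∀ (k k' : P → ℝ≥0∞) (n m : ℕ), Measurable k → Measurable k' → 1 ≤ n → 1 ≤ m →
      ∀ g : P × H, ∫⁻ q, D.tk k n q * D.tk k' m (q⁻¹ * g) ∂D.μ =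
        D.tk (fun s => ∫⁻ q, k q * k' (q⁻¹ * s) ∂D.μ₁) (n + m) g) ∧
    (∀ (k : P → ℝ≥0∞) (n m : ℕ), 1 ≤ n → 1 ≤ m → ∀ g : P × H,
      ∫⁻ h, D.nu m h * D.tk k n (g * ((1 : P), h)) ∂D.μ₂ = D.tk k (n + m) g) ∧
    (∀ K : P × H → ℝ≥0∞, Measurable K → ∀ x : P × H, D.IM (fun z => D.N K x z) = ∫⁻ g, K g ∂D.μ) ∧
    (∀ K : P × H → ℝ≥0∞, Measurable K → ∀ x : P × H, D.IM (fun z => D.N K z x) = ∫⁻ g, K g ∂D.μ)

end Pool.Agent.MPEF
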