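import Pool.Agent.Lib.MP_ef3f0f_gt.Z.Spec

set_option autoImplicit false

/-! MP_ef3f0f_gt, part 0, module chi: the cutoff function. -/

namespace Pool.Agent.MPEF

open MeasureTheory Topology
open scoped ENNReal Pointwise

private theorem chi_cover (G : Type) [Group G] [TopologicalSpace G] [IsTopologicalGroup G]
    [LocallyCompactSpace G] [T2Space G] [SecondCountableTopology G] (Γ : Subgroup G)
    (hc : CompactSpace (G ⧸ Γ)) :
    ∃ K : Set G, IsCompact K ∧ ∀ x : G, ∃ γ ∈ Γ, γ * x ∈ K := by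
  have : SigmaCompactSpace G := sigmaCompactSpace_of_locallyCompact_secondCountable
  let E := CompactExhaustion.choice G
  have hop : ∀ n, IsOpen ((QuotientGroup.mk : G → G ⧸ Γ) '' interior (E n)) := fun n =>
    QuotientGroup.isOpenMap_coe _ isOpen_interior
  have hcov : (Set.univ : Set (G ⧸ Γ)) ⊆ ⋃ n, (QuotientGroup.mk : G → G ⧸ Γ) '' interior (E n) := by
    intro q _
    obtain ⟨x, rfl⟩ := QuotientGroup.mk_surjective q
    obtain ⟨n, hn⟩ := E.exists_mem x
    refine Set.mem_iUnion.2 ⟨n + 1, x, E.subset_interior_succ n hn, rfl⟩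
  have hdir : Directed (· ⊆ ·) fun n => (QuotientGroup.mk : G → G ⧸ Γ) '' interior (E n) := by
    apply Monotone.directed_le
    intro m n hmn
    exact Set.image_mono (interior_mono (E.subset hmn))
  obtain ⟨n, hn⟩ := (isCompact_univ (X := G ⧸ Γ)).elim_directed_cover _ hop hcov hdir
  refine ⟨(E n)⁻¹, (E.isCompact n).inv, ?_⟩
  intro x
  obtain ⟨k, hk, hkx⟩ := hn (Set.mem_univ ((x⁻¹ : G) : G ⧸ Γ))
  have h1 : k⁻¹ * x⁻¹ ∈ Γ := QuotientGroup.eq.1 hkx
  refine ⟨k⁻¹ * x⁻¹, h1, ?_⟩
  have h2 : k⁻¹ * x⁻¹ * x = k⁻¹ := by group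
  rw [h2, Set.inv_mem_inv]
  exact interior_subset hk

private theorem chi_countable (G : Type) [Group G] [TopologicalSpace G]
    [SecondCountableTopology G] (Γ : Subgroup G) (hd : DiscreteTopology Γ) : Countable Γ := by
  exact TopologicalSpace.separableSpace_iff_countable.1 inferInstance

theorem tchi : S_disc → S_chi := by
  intro hdisc G _ _ _ _ _ _ _ _ Γ hd hc
  have hcount : Countable Γ := chi_countable G Γ hd
  refine ⟨hcount, ?_⟩
  obtain ⟨K, hK, hcov⟩ := chi_cover G Γ hc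
  let f : G → ℝ≥0∞ := K.indicator 1
  let n : G → ℝ≥0∞ := fun x => ∑' γ : Γ, f ((γ : G) * x)
  have hfm : Measurable f := measurable_one.indicator hK.measurableSet
  have hnm : Measurable n := Measurable.ennreal_tsum fun γ =>
    hfm.comp (measurable_const_mul (γ : G))
  have hn1 : ∀ x, 1 ≤ n x := by
    intro x
    obtain ⟨γ, hγ, hx⟩ := hcov x
    have h1 : f (((⟨γ, hγ⟩ : Γ) : G) * x) = 1 := Set.indicator_of_mem hx _
    rw [← h1]
    exact ENNReal.le_tsum (⟨γ, hγ⟩ : Γ)
  have hntop : ∀ x, n x ≠ ∞ := by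
    intro x
    have hKx : IsCompact (K * {x⁻¹}) := hK.mul isCompact_singleton
    have hfin := hdisc G Γ hd _ hKx
    have hfin2 : {γ : Γ | (γ : G) * x ∈ K}.Finite := by
      refine Set.Finite.of_finite_image (f := fun γ : Γ => (γ : G)) (hfin.subset ?_)
        Subtype.val_injective.injOn
      rintro _ ⟨γ, hγ, rfl⟩
      refine ⟨γ.2, Set.mem_mul.2 ⟨(γ : G) * x, hγ, x⁻¹, rfl, by group⟩⟩
    have h1 : n x = ∑ γ ∈ hfin2.toFinset, f ((γ : G) * x) := by
      apply tsum_eq_sum
      intro γ hγ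
      apply Set.indicator_of_notMem
      intro h
      exact hγ (hfin2.mem_toFinset.2 h)
    rw [h1]
    apply ENNReal.sum_ne_top.2
    intro γ _
    by_cases h : (γ : G) * x ∈ K
    · have : f ((γ : G) * x) = 1 := Set.indicator_of_mem h _
      rw [this]
      exact ENNReal.one_ne_top
    · have : f ((γ : G) * x) = 0 := Set.indicator_of_notMem h _
      rw [this]
      exact ENNReal.zero_ne_top
  have hninv : ∀ (γ₀ : Γ) (x : G), n ((γ₀ : G) * x) = n x := by
    intro γ₀ x
    have h1 : n ((γ₀ : G) * x) = ∑' γ : Γ, f (((γ * γ₀ : Γ) : G) * x) := by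
      apply tsum_congr
      intro γ
      rw [Subgroup.coe_mul, mul_assoc]
    rw [h1]
    exact (Equiv.mulRight γ₀).tsum_eq (fun γ : Γ => f ((γ : G) * x))
  refine ⟨fun x => f x / n x, hfm.div hnm, ?_, ⟨K, hK, ?_⟩, ?_⟩
  · intro x
    by_cases h : x ∈ K
    · have h1 : f x = 1 := Set.indicator_of_mem h _
      simp only [h1]
      exact ENNReal.div_le_of_le_mul (by rw [one_mul]; exact hn1 x)
    · have h1 : f x = 0 := Set.indicator_of_notMem h _
      simp only [h1, ENNReal.zero_div]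
      exact zero_le_one
  · intro x hx
    have h1 : f x = 0 := Set.indicator_of_notMem hx _
    simp only [h1, ENNReal.zero_div]
  · intro x
    have h1 : ∀ γ : Γ, f ((γ : G) * x) / n ((γ : G) * x) = f ((γ : G) * x) * (n x)⁻¹ := by
      intro γ
      rw [hninv γ x, div_eq_mul_inv]
    rw [tsum_congr h1, ENNReal.tsum_mul_right]
    exact ENNReal.mul_inv_cancel (lt_of_lt_of_le one_pos (hn1 x)).ne' (hntop x)

end Pool.Agent.MPEF
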