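import Pool.Agent.Lib.MP_ef3f0f_gt.Z.Spec

set_option autoImplicit false

/-! MP_ef3f0f_gt, part 0, module nuEx: the density. -/

namespace Pool.Agent.MPEF

open MeasureTheory Topology
open scoped ENNReal Pointwise

theorem tnuEx : S_nuEx := by
  intro H _ _ _ _ _ _ _ _ μ hμ _ hgen
  obtain ⟨K, hK, hKg⟩ := hgen
  obtain ⟨f, hf1, -, hfc, hf01⟩ := exists_continuous_one_zero_of_isCompact
    (hK.union (isCompact_singleton (x := (1 : H)))) isClosed_empty (Set.disjoint_empty _)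
  have hg0 : ∀ h, 0 ≤ f h + f h⁻¹ := fun h => add_nonneg (hf01 h).1 (hf01 h⁻¹).1
  have hg2 : ∀ h, f h + f h⁻¹ ≤ 2 := fun h => by
    have h1 := (hf01 h).2
    have h2 := (hf01 h⁻¹).2
    linarith
  have hgc : Continuous fun h : H => f h + f h⁻¹ :=
    f.continuous.add (f.continuous.comp continuous_inv)
  have hgK : ∀ h ∈ K ∪ {1}, 1 ≤ f h + f h⁻¹ := fun h hh => by
    have h1 : f h = 1 := hf1 hh
    have h2 := (hf01 h⁻¹).1
    linarith
  have hS : IsCompact (tsupport f ∪ (tsupport f)⁻¹) := hfc.union hfc.inv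
  have hgS : ∀ h, h ∉ tsupport f ∪ (tsupport f)⁻¹ → f h + f h⁻¹ = 0 := by
    intro h hh
    rw [Set.mem_union, not_or] at hh
    rw [image_eq_zero_of_notMem_tsupport hh.1, image_eq_zero_of_notMem_tsupport hh.2, add_zero]
  have hmeas : Measurable fun h : H => ENNReal.ofReal (f h + f h⁻¹) :=
    (ENNReal.continuous_ofReal.comp hgc).measurable
  have hfin : ∫⁻ h, ENNReal.ofReal (f h + f h⁻¹) ∂μ ≠ ∞ := by
    refine ne_of_lt (lt_of_le_of_lt (lintegral_mono (g := (tsupport f ∪ (tsupport f)⁻¹).indicator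
      fun _ => 2) fun h => ?_) ?_)
    · by_cases hh : h ∈ tsupport f ∪ (tsupport f)⁻¹
      · rw [Set.indicator_of_mem hh]
        exact ENNReal.ofReal_le_of_le_toReal (by simpa using hg2 h)
      · rw [hgS h hh, ENNReal.ofReal_zero]
        exact zero_le
    · rw [lintegral_indicator hS.measurableSet, lintegral_const, Measure.restrict_apply_univ]
      exact ENNReal.mul_lt_top (by simp) hS.measure_lt_top
  have hpos : ∫⁻ h, ENNReal.ofReal (f h + f h⁻¹) ∂μ ≠ 0 := by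
    intro h0
    rw [lintegral_eq_zero_iff hmeas] at h0
    have h1 : (fun h : H => ENNReal.ofReal (f h + f h⁻¹)) = fun _ => 0 :=
      Continuous.ae_eq_iff_eq μ (ENNReal.continuous_ofReal.comp hgc) continuous_const |>.1 h0
    have h2 := congrFun h1 1
    have h3 := hgK 1 (Or.inr rfl)
    simp only [ENNReal.ofReal_eq_zero] at h2
    linarith
  have hc : (∫⁻ h, ENNReal.ofReal (f h + f h⁻¹) ∂μ)⁻¹ ≠ ∞ := ENNReal.inv_ne_top.2 hpos
  have hc0 : (∫⁻ h, ENNReal.ofReal (f h + f h⁻¹) ∂μ)⁻¹ ≠ 0 := ENNReal.inv_ne_zero.2 hfin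
  have hO : ∀ h ∈ K ∪ {1}, 0 < (∫⁻ h, ENNReal.ofReal (f h + f h⁻¹) ∂μ)⁻¹ *
      ENNReal.ofReal (f h + f h⁻¹) := fun h hh =>
    ENNReal.mul_pos hc0 (by
      have := hgK h hh
      simp only [ne_eq, ENNReal.ofReal_eq_zero, not_le]
      linarith)
  refine ⟨fun h => (∫⁻ h, ENNReal.ofReal (f h + f h⁻¹) ∂μ)⁻¹ * ENNReal.ofReal (f h + f h⁻¹),
    ?_, ?_, ?_, hO 1 (Or.inr rfl), ?_, ⟨_, hS, ?_⟩, ?_⟩
  · exact (ENNReal.continuous_const_mul hc).comp (ENNReal.continuous_ofReal.comp hgc)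
  · exact fun h => ENNReal.mul_ne_top hc ENNReal.ofReal_ne_top
  · intro h
    simp only [inv_inv, add_comm]
  · rw [lintegral_const_mul _ hmeas]
    exact ENNReal.inv_mul_cancel hpos hfin
  · intro h hh
    simp only [hgS h hh, ENNReal.ofReal_zero, mul_zero]
  · intro h
    have hmem : h ∈ Subgroup.closure K := by
      rw [hKg]
      trivial
    have hinv : ({h : H | 0 < (∫⁻ h, ENNReal.ofReal (f h + f h⁻¹) ∂μ)⁻¹ *
        ENNReal.ofReal (f h + f h⁻¹)} : Set H)⁻¹ = {h : H | 0 < (∫⁻ h, ENNReal.ofReal (f h + f h⁻¹) ∂μ)⁻¹ *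
        ENNReal.ofReal (f h + f h⁻¹)} := by
      ext x
      simp only [Set.mem_inv, Set.mem_ofPred_eq, inv_inv, add_comm]
    induction hmem using Subgroup.closure_induction with
    | mem x hx => exact ⟨1, by rw [pow_one]; exact hO x (Or.inl hx)⟩
    | one => exact ⟨0, by rw [pow_zero]; exact Set.mem_one.2 rfl⟩
    | mul x y _ _ hx hy =>
      obtain ⟨m, hm⟩ := hx
      obtain ⟨n, hn⟩ := hy
      refine ⟨m + n, ?_⟩
      rw [pow_add]
      exact Set.mul_mem_mul hm hn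
    | inv x _ hx =>
      obtain ⟨m, hm⟩ := hx
      refine ⟨m, ?_⟩
      rw [← Set.mem_inv, ← inv_pow, hinv]
      exact hm

end Pool.Agent.MPEF
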