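import Pool.Agent.Lib.MP_ef3f0f_gt.Z.Spec

set_option autoImplicit false

/-!
# MP_ef3f0f_gt, Part 0: factors of a unimodular product
-/

namespace Pool.Agent.MPEF

open MeasureTheory Topology
open scoped ENNReal Pointwise NNReal

/-- A left and right invariant Haar measure is inversion invariant. -/
private theorem prodinv_inv {G : Type} [Group G] [TopologicalSpace G] [IsTopologicalGroup G]
    [LocallyCompactSpace G] [SecondCountableTopology G] [MeasurableSpace G] [BorelSpace G]
    (μ : Measure G) [μ.IsHaarMeasure] [μ.IsMulRightInvariant] : μ.IsInvInvariant := by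
  constructor
  let c : ℝ≥0∞ := Measure.haarScalarFactor μ.inv μ
  have hc : μ.inv = c • μ := Measure.isMulLeftInvariant_eq_smul μ.inv μ
  have h1 : Measure.map Inv.inv (Measure.map Inv.inv μ) = c ^ 2 • μ := by
    rw [← Measure.inv_def μ, hc, Measure.map_smul, ← Measure.inv_def μ, hc, smul_smul, pow_two]
  have μeq : μ = c ^ 2 • μ := by
    rw [Measure.map_map continuous_inv.measurable continuous_inv.measurable] at h1
    simpa only [inv_involutive, Function.Involutive.comp_self, Measure.map_id] using h1
  have K : TopologicalSpace.PositiveCompacts G := Classical.arbitrary _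
  have h2 : c ^ 2 * μ K = 1 ^ 2 * μ K := by
    conv_rhs => rw [μeq]
    simp
  have h3 : c ^ 2 = 1 ^ 2 :=
    (ENNReal.mul_left_inj (Measure.measure_pos_of_nonempty_interior _ K.interior_nonempty).ne'
          K.isCompact.measure_lt_top.ne).1 h2
  have h4 : c = 1 := (ENNReal.pow_right_strictMono two_ne_zero).injective h3
  rw [hc, h4, one_smul]

theorem tprodinv : S_prodinv := by
  intro P H _ _ _ _ _ _ _ _ _ _ _ _ _ _ _ _ μ₁ μ₂ h1 h2 hr
  have r1 : μ₁.IsMulRightInvariant := by
    have K : TopologicalSpace.PositiveCompacts H := Classical.arbitrary _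
    refine ⟨fun g => ?_⟩
    ext A hA
    rw [Measure.map_apply (measurable_mul_const g) hA]
    have h3 := measure_preimage_mul_right (μ₁.prod μ₂) ((g, 1) : P × H) (A ×ˢ (K : Set H))
    have h4 : (fun h : P × H => h * (g, 1)) ⁻¹' (A ×ˢ (K : Set H)) =
        ((fun x => x * g) ⁻¹' A) ×ˢ (K : Set H) := by
      ext x
      simp
    rw [h4, Measure.prod_prod, Measure.prod_prod] at h3
    exact (ENNReal.mul_left_inj (Measure.measure_pos_of_nonempty_interior _ K.interior_nonempty).ne'
      K.isCompact.measure_lt_top.ne).1 h3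
  have r2 : μ₂.IsMulRightInvariant := by
    have K : TopologicalSpace.PositiveCompacts P := Classical.arbitrary _
    refine ⟨fun g => ?_⟩
    ext A hA
    rw [Measure.map_apply (measurable_mul_const g) hA]
    have h3 := measure_preimage_mul_right (μ₁.prod μ₂) ((1, g) : P × H) ((K : Set P) ×ˢ A)
    have h4 : (fun h : P × H => h * (1, g)) ⁻¹' ((K : Set P) ×ˢ A) =
        (K : Set P) ×ˢ ((fun x => x * g) ⁻¹' A) := by
      ext x
      simp
    rw [h4, Measure.prod_prod, Measure.prod_prod] at h3
    exact (ENNReal.mul_right_inj (Measure.measure_pos_of_nonempty_interior _ K.interior_nonempty).ne'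
      K.isCompact.measure_lt_top.ne).1 h3
  exact ⟨r1, r2, prodinv_inv μ₁, prodinv_inv μ₂⟩

end Pool.Agent.MPEF
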