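import Pool.Agent.Lib.MP_ef3f0f_gt.Z.Spec

set_option autoImplicit false

/-! MP_ef3f0f_gt, part 0, module unim: unimodularity from a lattice. -/

namespace Pool.Agent.MPEF

open MeasureTheory Topology
open scoped ENNReal Pointwise

private theorem unim_shift (G : Type) [Group G] [TopologicalSpace G] [IsTopologicalGroup G]
    [SecondCountableTopology G] [MeasurableSpace G] [BorelSpace G]
    (Γ : Subgroup G) (χ : G → ℝ≥0∞) (μ : Measure G) [Countable Γ] (hm : Measurable χ)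
    (hs : ∀ x, ∑' γ : Γ, χ ((γ : G) * x) = 1) [μ.IsMulLeftInvariant] (g : G) :
    ∫⁻ x, χ (x * g) ∂μ = ∫⁻ x, χ x ∂μ := by
  have hmg : Measurable fun x => χ (x * g) := hm.comp (measurable_mul_const g)
  have h1 : ∀ x, χ (x * g) = ∑' γ : Γ, χ ((γ : G) * x) * χ (x * g) := by
    intro x
    rw [ENNReal.tsum_mul_right, hs x, one_mul]
  have h2 : ∀ γ : Γ, ∫⁻ x, χ ((γ : G) * x) * χ (x * g) ∂μ =
      ∫⁻ x, χ x * χ ((γ : G)⁻¹ * (x * g)) ∂μ := by
    intro γ
    rw [← lintegral_mul_left_eq_self (fun x => χ x * χ ((γ : G)⁻¹ * (x * g))) (γ : G)]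
    apply lintegral_congr
    intro x
    have : (γ : G)⁻¹ * ((γ : G) * x * g) = x * g := by group
    rw [this]
  have h3 : ∀ x, ∑' γ : Γ, χ x * χ ((γ : G)⁻¹ * (x * g)) = χ x := by
    intro x
    rw [ENNReal.tsum_mul_left]
    have h4 : ∑' γ : Γ, χ ((γ : G)⁻¹ * (x * g)) = ∑' γ : Γ, χ ((γ : G) * (x * g)) := by
      rw [← (Equiv.inv Γ).tsum_eq (fun γ : Γ => χ ((γ : G) * (x * g)))]
      rfl
    rw [h4, hs, mul_one]
  calc ∫⁻ x, χ (x * g) ∂μ = ∫⁻ x, ∑' γ : Γ, χ ((γ : G) * x) * χ (x * g) ∂μ := lintegral_congr h1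
    _ = ∑' γ : Γ, ∫⁻ x, χ ((γ : G) * x) * χ (x * g) ∂μ :=
        lintegral_tsum fun γ => ((hm.comp (measurable_const_mul (γ : G))).mul hmg).aemeasurable
    _ = ∑' γ : Γ, ∫⁻ x, χ x * χ ((γ : G)⁻¹ * (x * g)) ∂μ := tsum_congr h2
    _ = ∫⁻ x, ∑' γ : Γ, χ x * χ ((γ : G)⁻¹ * (x * g)) ∂μ := by
        rw [lintegral_tsum]
        intro γ
        exact (hm.mul (hm.comp ((measurable_const_mul (γ : G)⁻¹).comp
          (measurable_mul_const g)))).aemeasurable
    _ = ∫⁻ x, χ x ∂μ := lintegral_congr h3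

theorem tunim : S_unim := by
  intro G _ _ _ _ _ _ _ _ Γ χ μ hcount hm h1 hK hs hμ
  have := hcount
  have := hμ
  obtain ⟨K, hK, hKχ⟩ := hK
  have htop : ∫⁻ x, χ x ∂μ ≠ ∞ := by
    have h2 : ∫⁻ x, χ x ∂μ ≤ μ K := by
      calc ∫⁻ x, χ x ∂μ ≤ ∫⁻ x, K.indicator 1 x ∂μ := by
            apply lintegral_mono
            intro x
            by_cases hx : x ∈ K
            · rw [Set.indicator_of_mem hx]
              exact h1 x
            · rw [hKχ x hx]
              exact zero_le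
        _ = μ K := lintegral_indicator_one hK.measurableSet
    exact (h2.trans_lt hK.measure_lt_top).ne
  have hpos : 0 < ∫⁻ x, χ x ∂μ := by
    rw [pos_iff_ne_zero]
    intro h0
    have h2 : μ Set.univ = 0 := by
      calc μ Set.univ = ∫⁻ x, ∑' γ : Γ, χ ((γ : G) * x) ∂μ := by
            rw [lintegral_congr hs, lintegral_one]
        _ = ∑' γ : Γ, ∫⁻ x, χ ((γ : G) * x) ∂μ :=
            lintegral_tsum fun γ => (hm.comp (measurable_const_mul (γ : G))).aemeasurable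
        _ = ∑' γ : Γ, ∫⁻ x, χ x ∂μ := tsum_congr fun γ => lintegral_mul_left_eq_self _ _
        _ = 0 := by rw [h0, tsum_zero]
    exact (isOpen_univ.measure_pos μ ⟨1, Set.mem_univ _⟩).ne' h2
  refine ⟨⟨?_⟩, hpos, htop⟩
  intro g
  obtain ⟨c, h2⟩ : ∃ c : ℝ≥0∞, Measure.map (· * g) μ = c • μ :=
    ⟨(Measure.haarScalarFactor (Measure.map (· * g) μ) μ : ℝ≥0∞),
      Measure.isMulLeftInvariant_eq_smul _ _⟩
  have h3 : ∫⁻ x, χ x ∂(Measure.map (· * g) μ) = ∫⁻ x, χ x ∂μ := by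
    rw [lintegral_map hm (measurable_mul_const g)]
    exact unim_shift G Γ χ μ hm hs g
  have h4 : ∫⁻ x, χ x ∂(Measure.map (· * g) μ) = c * ∫⁻ x, χ x ∂μ := by
    rw [h2, lintegral_smul_measure, smul_eq_mul]
  rw [h3] at h4
  have h5 : c = 1 := by
    have h6 : 1 * ∫⁻ x, χ x ∂μ = c * ∫⁻ x, χ x ∂μ := by
      rw [one_mul]; exact h4
    exact ((ENNReal.mul_left_inj hpos.ne' htop).1 h6).symm
  rw [h5, one_smul] at h2
  exact h2

end Pool.Agent.MPEF
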