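import Pool.Agent.Lib.MP_ef3f0f_gt.Z.Spec

set_option autoImplicit false

/-! MP_ef3f0f_gt, part 0, module Dat: existence of the data. -/

namespace Pool.Agent.MPEF

open MeasureTheory Topology
open scoped ENNReal Pointwise

variable (P H : Type) [Group P] [Group H] [TopologicalSpace P] [TopologicalSpace H]
  [IsTopologicalGroup P] [IsTopologicalGroup H] [LocallyCompactSpace P] [LocallyCompactSpace H]
  [T2Space P] [T2Space H] [SecondCountableTopology P] [SecondCountableTopology H]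
  [MeasurableSpace P] [MeasurableSpace H] [BorelSpace P] [BorelSpace H]

theorem tDat : S_disc → S_chi → S_unim → S_prodinv → S_nuEx → S_Dat P H := by
  intro hdisc hchi hunim hpi hnu Γ hd hcp hdense hgen
  obtain ⟨hc, χ, χm, χ1, χK, χs⟩ := hchi (P × H) Γ hd hcp
  obtain ⟨μ₁, i1⟩ : ∃ μ₁ : Measure P, μ₁.IsHaarMeasure := ⟨Measure.haar, inferInstance⟩
  obtain ⟨μ, i2⟩ : ∃ μ : Measure H, μ.IsHaarMeasure := ⟨Measure.haar, inferInstance⟩
  obtain ⟨-, hpos, hfin⟩ := hunim (P × H) Γ χ (μ₁.prod μ) hc χm χ1 χK χs inferInstance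
  obtain ⟨m, hm⟩ : ∃ m : ℝ≥0∞, m = ∫⁻ x, χ x ∂(μ₁.prod μ) := ⟨_, rfl⟩
  rw [← hm] at hpos hfin
  have hm1 : m⁻¹ ≠ 0 := ENNReal.inv_ne_zero.2 hfin
  have hm2 : m⁻¹ ≠ ∞ := ENNReal.inv_ne_top.2 hpos.ne'
  have i3 : (m⁻¹ • μ).IsHaarMeasure := Measure.IsHaarMeasure.smul μ hm1 hm2
  obtain ⟨μ₂, hμ₂⟩ : ∃ μ₂ : Measure H, μ₂ = m⁻¹ • μ := ⟨_, rfl⟩
  rw [← hμ₂] at i3
  obtain ⟨hr, -, -⟩ := hunim (P × H) Γ χ (μ₁.prod μ₂) hc χm χ1 χK χs inferInstance
  obtain ⟨r1, r2, v1, v2⟩ := hpi P H μ₁ μ₂ i1 i3 hr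
  obtain ⟨ν, νc, νt, νi, ν1, νint, νK, νgen⟩ := hnu H μ₂ i3 v2 hgen
  have hmass : ∫⁻ x, χ x ∂(μ₁.prod μ₂) = 1 := by
    rw [hμ₂, Measure.prod_smul_right, lintegral_smul_measure, ← hm, smul_eq_mul]
    exact ENNReal.inv_mul_cancel hpos.ne' hfin
  exact ⟨⟨Γ, χ, μ₁, μ₂, ν⟩,
    { disc := hdisc (P × H) Γ hd
      dense := hdense
      χm := χm
      χ1 := χ1
      χK := χK
      χs := χs
      haar₁ := i1
      haar₂ := i3
      right₁ := r1
      right₂ := r2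
      inv₁ := v1
      inv₂ := v2
      mass := hmass
      νc := νc
      νt := νt
      νi := νi
      ν1 := ν1
      νint := νint
      νK := νK
      νgen := νgen }, rfl⟩

end Pool.Agent.MPEF
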