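import Pool.Agent.Lib.MP_ef3f0f_gt.A.Defs

set_option autoImplicit false

/-!
# MP_ef3f0f_gt, Part 0: common definitions for Parts 0, I, II, III

`P` is an abstract locally compact second countable group (`SL₂(ℝ)` in the application), `H` the
other factor, `Γ ≤ P × H` discrete and cocompact with dense projection to `P`. Everything is
`ℝ≥0∞`-valued (`lintegral`, `tsum` over `Γ`).
-/

namespace Pool.Agent.MPEF

open MeasureTheory Topology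
open scoped ENNReal Pointwise

/-! ## Types -/

/-- Types of windows. -/
abbrev Ty : Type := Fin 5 × Fin 16

/-- Positive cyclic order. -/
def posF {n : ℕ} (a b c : Fin n) : Prop := 0 < (b - a).val ∧ (b - a).val < (c - a).val

/-- Distance at least two in the cycle of length 16. -/
def farF (a b : Fin 16) : Prop := 2 ≤ (b - a).val ∧ 2 ≤ (a - b).val

/-- Compatible types. -/
def Cp (a b : Ty) : Prop := a.1 ≠ b.1 ∧ farF a.2 b.2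

/-- Pants triples, in positive order. -/
def PT (a b c : Ty) : Prop :=
  posF a.1 b.1 c.1 ∧ posF c.2 b.2 a.2 ∧ farF a.2 b.2 ∧ farF b.2 c.2 ∧ farF a.2 c.2

instance {n : ℕ} (a b c : Fin n) : Decidable (posF a b c) := by unfold posF; infer_instance
instance (a b : Fin 16) : Decidable (farF a b) := by unfold farF; infer_instance
instance (a b : Ty) : Decidable (Cp a b) := by unfold Cp; infer_instance
instance (a b c : Ty) : Decidable (PT a b c) := by unfold PT; infer_instance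

/-- The finite set of the pants triples. -/
def PTs : Finset (Ty × Ty × Ty) := Finset.univ.filter fun t => PT t.1 t.2.1 t.2.2

/-! ## The data -/

/-- Data: the lattice `Γ`, the cutoff function `χ` (with `∑ χ (γ x) = 1`), Haar measures, and the
probability density `ν` on `H`. -/
structure Dat (P H : Type) [Group P] [Group H] [MeasurableSpace P] [MeasurableSpace H] where
  Γ : Subgroup (P × H)
  χ : P × H → ℝ≥0∞
  μ₁ : Measure P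
  μ₂ : Measure H
  ν : H → ℝ≥0∞

section
variable {P H : Type} [Group P] [Group H] [MeasurableSpace P] [MeasurableSpace H]

/-- The Haar measure of `P × H`. -/
noncomputable def Dat.μ (D : Dat P H) : Measure (P × H) := D.μ₁.prod D.μ₂

/-- The set where `ν > 0`. -/
def Dat.O (D : Dat P H) : Set H := {h | 0 < D.ν h}

/-- Auxiliary: `nuA n` is the `(n+1)`-fold convolution of `ν`. -/
noncomputable def Dat.nuA (D : Dat P H) : ℕ → H → ℝ≥0∞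
  | 0 => D.ν
  | n + 1 => fun h => ∫⁻ q, D.ν q * D.nuA n (q⁻¹ * h) ∂D.μ₂

/-- `nu n` is the `n`-fold convolution of `ν` (`n ≥ 1`; junk value `ν` for `n = 0`). -/
noncomputable def Dat.nu (D : Dat P H) (n : ℕ) : H → ℝ≥0∞ := D.nuA (n - 1)

/-- The tensor kernel `k ⊗ ν^(n)`. -/
noncomputable def Dat.tk (D : Dat P H) (k : P → ℝ≥0∞) (n : ℕ) : P × H → ℝ≥0∞ :=
  fun g => k g.1 * D.nu n g.2

/-- `∫_M f` for a `Γ`-invariant function `f`. -/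
noncomputable def Dat.IM (D : Dat P H) (f : P × H → ℝ≥0∞) : ℝ≥0∞ :=
  ∫⁻ x, D.χ x * f x ∂D.μ

/-- `∑_u K(x⁻¹ u y) f(u)`. -/
noncomputable def Dat.S1 (D : Dat P H) (K : P × H → ℝ≥0∞) (x y : P × H) (f : D.Γ → ℝ≥0∞) :
    ℝ≥0∞ :=
  ∑' u : D.Γ, K (x⁻¹ * (u : P × H) * y) * f u

/-- `N_K(x, y)`. -/
noncomputable def Dat.N (D : Dat P H) (K : P × H → ℝ≥0∞) (x y : P × H) : ℝ≥0∞ :=
  ∑' u : D.Γ, K (x⁻¹ * (u : P × H) * y)

/-- `∫_{M²} ∑_{u,v} K₁(x⁻¹uy) K₂(x⁻¹vy) Φ(u, v)`. -/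
noncomputable def Dat.T2 (D : Dat P H) (K₁ K₂ : P × H → ℝ≥0∞) (Φ : D.Γ → D.Γ → ℝ≥0∞) : ℝ≥0∞ :=
  D.IM fun x => D.IM fun y => ∑' u : D.Γ, ∑' v : D.Γ,
    K₁ (x⁻¹ * (u : P × H) * y) * K₂ (x⁻¹ * (v : P × H) * y) * Φ u v

/-- `∫_{M²} ∑_{u,v,w} K₁(x⁻¹uy) K₂(x⁻¹vy) K₃(x⁻¹wy) Φ(u, v, w)`. -/
noncomputable def Dat.T3 (D : Dat P H) (K₁ K₂ K₃ : P × H → ℝ≥0∞)
    (Φ : D.Γ → D.Γ → D.Γ → ℝ≥0∞) : ℝ≥0∞ :=
  D.IM fun x => D.IM fun y => ∑' u : D.Γ, ∑' v : D.Γ, ∑' w : D.Γ,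
    K₁ (x⁻¹ * (u : P × H) * y) * K₂ (x⁻¹ * (v : P × H) * y) * K₃ (x⁻¹ * (w : P × H) * y) *
      Φ u v w

/-- `I_ψ^N(Φ) = ∫_M ∑_γ ψ(x₁⁻¹γ₁x₁) ν^(N)(x₂⁻¹γ₂x₂) Φ(γ)`. -/
noncomputable def Dat.II (D : Dat P H) (ψ : P → ℝ≥0∞) (N : ℕ) (Φ : D.Γ → ℝ≥0∞) : ℝ≥0∞ :=
  D.IM fun x => ∑' γ : D.Γ, D.tk ψ N (x⁻¹ * (γ : P × H) * x) * Φ γ

/-- The axioms of the data. -/
structure Dat.Ok [TopologicalSpace P] [TopologicalSpace H] (D : Dat P H) : Prop where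
  disc : ∀ K : Set (P × H), IsCompact K → {γ : P × H | γ ∈ D.Γ ∧ γ ∈ K}.Finite
  dense : Dense (Prod.fst '' (D.Γ : Set (P × H)))
  χm : Measurable D.χ
  χ1 : ∀ x, D.χ x ≤ 1
  χK : ∃ K : Set (P × H), IsCompact K ∧ ∀ x, x ∉ K → D.χ x = 0
  χs : ∀ x, ∑' γ : D.Γ, D.χ ((γ : P × H) * x) = 1
  haar₁ : D.μ₁.IsHaarMeasure
  haar₂ : D.μ₂.IsHaarMeasure
  right₁ : D.μ₁.IsMulRightInvariant
  right₂ : D.μ₂.IsMulRightInvariant
  inv₁ : D.μ₁.IsInvInvariant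
  inv₂ : D.μ₂.IsInvInvariant
  mass : ∫⁻ x, D.χ x ∂D.μ = 1
  νc : Continuous D.ν
  νt : ∀ h, D.ν h ≠ ∞
  νi : ∀ h, D.ν h⁻¹ = D.ν h
  ν1 : 0 < D.ν 1
  νint : ∫⁻ h, D.ν h ∂D.μ₂ = 1
  νK : ∃ K : Set H, IsCompact K ∧ ∀ h, h ∉ K → D.ν h = 0
  νgen : ∀ h : H, ∃ n : ℕ, h ∈ D.O ^ n

/-! ## Functions on loops -/

/-- Odd class functions. -/
structure OddC {G : Type} [Group G] (φ : G → ℝ) : Prop where
  conj : ∀ g x, φ (g * x * g⁻¹) = φ x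
  inv : ∀ x, φ x⁻¹ = - φ x

/-- `φ̂(u, v) = φ(u v⁻¹)`. -/
def ph {G : Type} [Group G] (φ : G → ℝ) (u v : G) : ℝ := φ (u * v⁻¹)

/-- `δ(u, v, w)`. -/
def dl {G : Type} [Group G] (φ : G → ℝ) (u v w : G) : ℝ := ph φ u v + ph φ v w + ph φ w u

/-- `D_v(u, u')`. -/
def Dv {G : Type} [Group G] (φ : G → ℝ) (v u u' : G) : ℝ := ph φ u v - ph φ u' v

/-- Absolute value as an extended nonnegative real. -/
noncomputable def ab (t : ℝ) : ℝ≥0∞ := ENNReal.ofReal |t|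

/-- The weight `k ⊗ ν_r`, `ν_r = ∑_{n=r}^{4r} ν^(n)`. -/
noncomputable def Dat.wr (D : Dat P H) (k : P → ℝ≥0∞) (r : ℕ) : P × H → ℝ≥0∞ :=
  fun g => k g.1 * ∑ n ∈ Finset.Icc r (4 * r), D.nu n g.2

/-- `E(φ)`: the total defect of the pants (`ka a` is the kernel of type `a`). -/
noncomputable def Dat.EE (D : Dat P H) (ka : Ty → P → ℝ≥0∞) (r : ℕ) (φ : D.Γ → ℝ) : ℝ≥0∞ :=
  ∑ t ∈ PTs, D.T3 (D.wr (ka t.1) r) (D.wr (ka t.2.1) r) (D.wr (ka t.2.2) r)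
    fun u v w => ab (dl φ u v w)

/-- `A(φ)`: the total size of `φ` on the cuffs. -/
noncomputable def Dat.AA (D : Dat P H) (ka : Ty → P → ℝ≥0∞) (r : ℕ) (φ : D.Γ → ℝ) : ℝ≥0∞ :=
  ∑ t ∈ PTs, D.T2 (D.wr (ka t.1) r) (D.wr (ka t.2.1) r) fun u v => ab (ph φ u v)

/-- The integral of `δ⁺` (for `s = 1`) or `δ⁻` (for `s = -1`) over the torus type triple
`((0,12), (2,0), (3,8))` with the kernels `kb` and length `2 r`. -/
noncomputable def Dat.QQ (D : Dat P H) (kb : Ty → P → ℝ≥0∞) (r : ℕ) (φ : D.Γ → ℝ) (s : ℝ) :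
    ℝ≥0∞ :=
  D.T3 (D.tk (kb (0, 12)) (2 * r)) (D.tk (kb (2, 0)) (2 * r)) (D.tk (kb (3, 8)) (2 * r))
    fun u v w => ENNReal.ofReal (s * dl φ u v w)

end

/-! ## Geometry of `P` (windows) -/

/-- Windows: small sets `B k`, windows `Om M a l` (`M` the upper bound, `a` the type, `l` the level),
middle windows `Mid M a`, the set `Tr M`, the set `Hyp` of hyperbolic elements. -/
structure Geo (P : Type) where
  B : ℕ → Set P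
  Om : ℕ → Ty → ℕ → Set P
  Mid : ℕ → Ty → Set P
  Tr : ℕ → Set P
  Hyp : Set P

/-- The axioms of the windows. -/
structure Geo.Ok {P : Type} [Group P] [TopologicalSpace P] (G : Geo P) : Prop where
  bo : ∀ k, IsOpen (G.B k)
  b1 : ∀ k, (1 : P) ∈ G.B k
  bi : ∀ k, ∀ g ∈ G.B k, g⁻¹ ∈ G.B k
  bm : ∀ k, G.B k * G.B k ⊆ G.B (k + 1)
  bc : ∀ k, IsCompact (closure (G.B k))
  bg : Subgroup.closure (G.B 0) = ⊤
  oo : ∀ M a l, IsOpen (G.Om M a l)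
  oc : ∀ M a l, IsCompact (closure (G.Om M a l))
  om : ∀ M a l, G.B 9 * G.Om M a (l + 1) * G.B 9 ⊆ G.Om M a l
  mo : ∀ M a, IsOpen (G.Mid M a)
  ml : ∀ M a, G.Mid M a ⊆ G.Om M a 2
  ti : ∀ M, ∀ g ∈ G.Tr M, g⁻¹ ∈ G.Tr M
  hy : ∀ M a b, Cp a b → G.Om M a 0 * (G.Om M b 0)⁻¹ ⊆ G.Hyp
  big : ∃ M₁ : ℕ, ∀ M, M₁ ≤ M →
    (∀ a l, l ≤ 10 → (G.Om M a l).Nonempty) ∧ (∀ a, (G.Mid M a).Nonempty) ∧
    (∀ a b, Cp a b → closure (G.Om M a 0 * (G.Mid M b)⁻¹) ⊆ G.Tr M) ∧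
    (∀ g ∈ G.Tr M, ∃ g₀ ∈ G.Om M (0, 8) 6, ∃ g₁ ∈ G.Om M (2, 0) 6, ∃ q : P,
      q⁻¹ * g * q = g₀ * g₁⁻¹)
  wd : ∀ L : Finset (List P), (∀ w ∈ L, w.prod = 1 ∧ ∀ g ∈ w, g ∈ G.B 7) →
    ∃ M₀ : ℕ, ∀ M, M₀ ≤ M → ∃ gs : P, ∀ w ∈ L, ∃ j : ℕ → Fin 16,
      j 0 = 4 ∧ j w.length = 4 ∧
      (∀ i, i < w.length → j (i + 1) = j i ∨ j (i + 1) = j i + 1 ∨ j i = j (i + 1) + 1) ∧
      ∀ i, i ≤ w.length → gs * (w.take i).prod ∈ G.Om M (0, j i) 7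

/-- The kernels `ka` (large) and `kb` (small): bounded, measurable, supported in the windows of
level `0` resp. `4`, bounded below on the windows of level `2` resp. `6`. -/
structure KerOk {P : Type} [MeasurableSpace P] (G : Geo P) (M : ℕ) (ka kb : Ty → P → ℝ≥0∞) :
    Prop where
  am : ∀ a, Measurable (ka a)
  bm : ∀ a, Measurable (kb a)
  ab : ∃ C : ℝ≥0∞, C ≠ ∞ ∧ ∀ a g, ka a g ≤ C ∧ kb a g ≤ C
  as : ∀ a g, g ∉ G.Om M a 0 → ka a g = 0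
  bs : ∀ a g, g ∉ G.Om M a 4 → kb a g = 0
  al : ∃ c : ℝ≥0∞, 0 < c ∧ ∀ a, (∀ g ∈ G.Om M a 2, c ≤ ka a g) ∧ ∀ g ∈ G.Om M a 6, c ≤ kb a g

/-- The exact balance (III.1), as a property of the data. -/
def Bal {P H : Type} [Group P] [Group H] [MeasurableSpace P] [MeasurableSpace H]
    [TopologicalSpace P] (D : Dat P H) (Hyp : Set P) : Prop :=
  ∀ ψ : P → ℝ≥0∞, Measurable ψ → (∃ C : ℝ≥0∞, C ≠ ∞ ∧ ∀ g, ψ g ≤ C) →
    (∃ K : Set P, IsCompact K ∧ ∀ g, g ∉ K → ψ g = 0) → (∀ g, g ∉ Hyp → ψ g = 0) →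
    ∀ N : ℕ, 1 ≤ N → ∀ Φ : D.Γ → ℝ≥0∞, (∀ g x, Φ (g * x * g⁻¹) = Φ x) →
      D.II ψ N Φ = D.II ψ N fun γ => Φ γ⁻¹

/-- **Theorem 1 (coercivity).** -/
def S_Thm1 : Prop :=
  ∀ (P H : Type) [Group P] [Group H] [TopologicalSpace P] [TopologicalSpace H]
    [IsTopologicalGroup P] [IsTopologicalGroup H] [LocallyCompactSpace P] [LocallyCompactSpace H]
    [T2Space P] [T2Space H] [SecondCountableTopology P] [SecondCountableTopology H]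
    [MeasurableSpace P] [MeasurableSpace H] [BorelSpace P] [BorelSpace H]
    (D : Dat P H) (G : Geo P), D.Ok → G.Ok → Bal D G.Hyp →
    ∃ M₀ : ℕ, ∀ M, M₀ ≤ M → ∀ ka kb : Ty → P → ℝ≥0∞, KerOk G M ka kb →
      ∃ (C : ℝ≥0∞) (r₀ : ℕ), C ≠ ∞ ∧ ∀ r, r₀ ≤ r → ∀ φ : D.Γ → ℝ, OddC φ → ∀ β : ℝ≥0∞,
        D.QQ kb r φ 1 ≤ D.QQ kb r φ (-1) + β → D.QQ kb r φ (-1) ≤ D.QQ kb r φ 1 + β →
        ∃ h : D.Γ → ℝ, (∀ x y, h (x * y) = h x + h y) ∧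
          D.AA ka r (fun x => φ x - h x) ≤ C * (r : ℝ≥0∞) ^ 3 * (D.EE ka r φ + β)

end Pool.Agent.MPEF
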