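import Pool.Agent.Lib.MP_ef3f0f_gt.Z.Spec

set_option autoImplicit false
set_option linter.unusedSectionVars false

/-! Integrals of invariant functions over the quotient. -/

namespace Pool.Agent.MPEF

open MeasureTheory Topology
open scoped ENNReal Pointwise

variable (P H : Type) [Group P] [Group H] [TopologicalSpace P] [TopologicalSpace H]
  [IsTopologicalGroup P] [IsTopologicalGroup H] [LocallyCompactSpace P] [LocallyCompactSpace H]
  [T2Space P] [T2Space H] [SecondCountableTopology P] [SecondCountableTopology H]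
  [MeasurableSpace P] [MeasurableSpace H] [BorelSpace P] [BorelSpace H]

private theorem IM_four (hu : S_unf P H) (D : Dat P H) (hD : D.Ok) (χ' : P × H → ℝ≥0∞)
    (hχ' : Measurable χ') (hs : ∀ x, ∑' γ : D.Γ, χ' ((γ : P × H) * x) = 1) (f : P × H → ℝ≥0∞)
    (hf : Measurable f) (hi : ∀ γ ∈ D.Γ, ∀ x, f (γ * x) = f x) :
    ∫⁻ x, χ' x * f x ∂D.μ = D.IM f := by
  rw [← hu D hD (fun x => χ' x * f x) (hχ'.mul hf)]
  congr 1
  funext x
  have e : ∀ γ : D.Γ, χ' ((γ : P × H) * x) * f ((γ : P × H) * x) =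
      χ' ((γ : P × H) * x) * f x := fun γ => by rw [hi γ.1 γ.2 x]
  rw [tsum_congr e, ENNReal.tsum_mul_right, hs, one_mul]

private theorem IM_three (D : Dat P H) (hD : D.Ok) :
    ∃ K : Set (P × H), IsCompact K ∧ ∀ f : P × H → ℝ≥0∞, Measurable f →
      D.IM f ≤ ∫⁻ x in K, f x ∂D.μ := by
  obtain ⟨K, hK, hK0⟩ := hD.χK
  refine ⟨K, hK, fun f _ => ?_⟩
  rw [← lintegral_indicator hK.measurableSet]
  refine lintegral_mono fun x => ?_
  by_cases hx : x ∈ K
  · rw [Set.indicator_of_mem hx]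
    exact (mul_le_mul_left (hD.χ1 x) _).trans (by rw [one_mul])
  · rw [hK0 x hx, zero_mul]
    exact zero_le

private theorem IM_two (hu : S_unf P H) (D : Dat P H) (hD : D.Ok) (K : Set (P × H))
    (hK : IsCompact K) : ∃ C : ℝ≥0∞, C ≠ ∞ ∧ ∀ f : P × H → ℝ≥0∞, Measurable f →
      (∀ γ ∈ D.Γ, ∀ x, f (γ * x) = f x) → ∫⁻ x in K, f x ∂D.μ ≤ C * D.IM f := by
  obtain ⟨K', hK', hK0⟩ := hD.χK
  have hfin := hD.disc (K * K'⁻¹) (hK.mul hK'.inv)
  have hfin' : {u : D.Γ | (u : P × H) ∈ K * K'⁻¹}.Finite := by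
    refine Set.Finite.of_finite_image (f := Subtype.val) (hfin.subset ?_)
      Subtype.val_injective.injOn
    rintro _ ⟨u, hu, rfl⟩
    exact ⟨u.2, hu⟩
  refine ⟨hfin'.toFinset.card, ENNReal.natCast_ne_top _, fun f hf hi => ?_⟩
  rw [← lintegral_indicator hK.measurableSet, ← hu D hD _ (hf.indicator hK.measurableSet)]
  unfold Dat.IM
  rw [← lintegral_const_mul' _ _ (ENNReal.natCast_ne_top _)]
  refine lintegral_mono fun x => ?_
  change D.χ x * ∑' γ : D.Γ, K.indicator f ((γ : P × H) * x) ≤ _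
  by_cases hx : x ∈ K'
  · have e : ∀ u : D.Γ, u ∉ hfin'.toFinset → K.indicator f ((u : P × H) * x) = 0 := by
      intro u hu'
      rw [Set.Finite.mem_toFinset] at hu'
      refine Set.indicator_of_notMem (fun hmem => hu' ?_) _
      refine ⟨(u : P × H) * x, hmem, x⁻¹, Set.inv_mem_inv.2 hx, ?_⟩
      exact mul_inv_cancel_right _ _
    rw [tsum_eq_sum e]
    have e2 : ∑ u ∈ hfin'.toFinset, K.indicator f ((u : P × H) * x) ≤
        ∑ _u ∈ hfin'.toFinset, f x := by
      refine Finset.sum_le_sum fun u _ => ?_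
      rw [← hi u.1 u.2 x]
      exact Set.indicator_le_self _ _ _
    rw [Finset.sum_const, nsmul_eq_mul] at e2
    calc D.χ x * ∑ u ∈ hfin'.toFinset, K.indicator f ((u : P × H) * x)
        ≤ D.χ x * (hfin'.toFinset.card * f x) := by gcongr
      _ = hfin'.toFinset.card * (D.χ x * f x) := by ring
  · rw [hK0 x hx]
    simp

theorem tIM : S_inst P H → S_unf P H → S_IM P H := by
  intro hin hu D hD
  obtain ⟨-, -, -, -, -, h6, h7, -⟩ := hin D hD
  refine ⟨fun f hf hi g => ?_, fun K hK => IM_two P H hu D hD K hK, IM_three P H D hD,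
    fun χ' hχ' hs f hf hi => IM_four P H hu D hD χ' hχ' hs f hf hi⟩
  rw [← IM_four P H hu D hD (fun x => D.χ (x * g⁻¹)) (hD.χm.comp (measurable_mul_const _))
    (fun x => by
      have := hD.χs (x * g⁻¹)
      rw [← this]
      exact tsum_congr fun γ => by rw [mul_assoc]) f hf hi]
  unfold Dat.IM
  rw [← lintegral_mul_right_eq_self (fun x => D.χ (x * g⁻¹) * f x) g]
  refine lintegral_congr fun x => ?_
  rw [mul_inv_cancel_right]

end Pool.Agent.MPEF
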