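import Pool.Agent.Lib.MP_ef3f0f_gt.Z.Spec

set_option autoImplicit false
set_option linter.unusedSectionVars false

/-! Lower bound for the number of edges. -/

namespace Pool.Agent.MPEF

open MeasureTheory Topology
open scoped ENNReal Pointwise

variable (P H : Type) [Group P] [Group H] [TopologicalSpace P] [TopologicalSpace H]
  [IsTopologicalGroup P] [IsTopologicalGroup H] [LocallyCompactSpace P] [LocallyCompactSpace H]
  [T2Space P] [T2Space H] [SecondCountableTopology P] [SecondCountableTopology H]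
  [MeasurableSpace P] [MeasurableSpace H] [BorelSpace P] [BorelSpace H]

/-- Translates. -/
private theorem Lo_shift (D : Dat P H) (k : P → ℝ≥0∞) (n : ℕ) (q q' : P) (x y : P × H) :
    D.N (D.tk (fun g => k (q * g * q')) n) x y =
      D.N (D.tk k n) (x * (q⁻¹, 1)) (y * (q', 1)) := by
  unfold Dat.N
  refine tsum_congr fun u => ?_
  have e : (x * ((q⁻¹, 1) : P × H))⁻¹ * (u : P × H) * (y * ((q', 1) : P × H)) =
      (q, 1) * (x⁻¹ * (u : P × H) * y) * (q', 1) := by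
    have : (((q⁻¹, 1) : P × H))⁻¹ = (q, 1) := by simp [Prod.inv_mk]
    rw [mul_inv_rev, this]
    simp only [mul_assoc]
  rw [e]
  change k (q * (x⁻¹ * (u : P × H) * y).1 * q') * D.nu n (x⁻¹ * (u : P × H) * y).2 =
    k (q * (x⁻¹ * (u : P × H) * y).1 * q') * D.nu n (1 * (x⁻¹ * (u : P × H) * y).2 * 1)
  rw [one_mul, mul_one]

/-- On a compact set of pairs finitely many elements suffice. -/
private theorem Lo_cover (hO : S_O P H) (D : Dat P H) (hD : D.Ok) (U : Set P) (hU : IsOpen U)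
    (hne : U.Nonempty) (F : Set (P × H)) (hF : IsCompact F) :
    ∃ b : ℕ, 1 ≤ b ∧ ∀ x ∈ F, ∀ y ∈ F, ∃ u : D.Γ, (x⁻¹ * (u : P × H) * y).1 ∈ U ∧
      (x⁻¹ * (u : P × H) * y).2 ∈ D.O ^ b := by
  obtain ⟨hop, -, -, hmon, -, -, hexh⟩ := hO D hD
  let W : D.Γ × ℕ → Set ((P × H) × (P × H)) := fun i =>
    {p | (p.1⁻¹ * (i.1 : P × H) * p.2).1 ∈ U ∧ (p.1⁻¹ * (i.1 : P × H) * p.2).2 ∈ D.O ^ (i.2 + 1)}
  have hW : ∀ i, IsOpen (W i) := by
    intro i
    have hc : Continuous fun p : (P × H) × (P × H) => p.1⁻¹ * (i.1 : P × H) * p.2 := by fun_prop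
    exact (hU.preimage (continuous_fst.comp hc)).inter
      ((hop (i.2 + 1) (by omega)).preimage (continuous_snd.comp hc))
  have hcov : F ×ˢ F ⊆ ⋃ i, W i := by
    rintro ⟨x, y⟩ -
    obtain ⟨g, hg⟩ := hne
    have hopen : IsOpen ((fun p : P => x.1⁻¹ * p * y.1) ⁻¹' U) :=
      hU.preimage (by fun_prop)
    have hne' : ((fun p : P => x.1⁻¹ * p * y.1) ⁻¹' U).Nonempty :=
      ⟨x.1 * g * y.1⁻¹, by
        have : x.1⁻¹ * (x.1 * g * y.1⁻¹) * y.1 = g := by group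
        rw [Set.mem_preimage, this]; exact hg⟩
    obtain ⟨_, h1, ⟨u, hu, rfl⟩⟩ := hD.dense.inter_open_nonempty _ hopen hne'
    obtain ⟨n, hn⟩ := hexh {(x⁻¹ * u * y).2} isCompact_singleton
    rw [Set.mem_iUnion]
    exact ⟨(⟨u, hu⟩, n), h1, hmon n (n + 1) (by omega) (hn rfl)⟩
  obtain ⟨T, hT⟩ := (hF.prod hF).elim_finite_subcover W hW hcov
  refine ⟨T.sup (fun i => i.2) + 1, by omega, fun x hx y hy => ?_⟩
  have := hT (Set.mk_mem_prod hx hy)
  rw [Set.mem_iUnion₂] at this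
  obtain ⟨i, hi, h1, h2⟩ := this
  refine ⟨i.1, h1, hmon _ _ ?_ h2⟩
  have : i.2 ≤ T.sup (fun i => i.2) := Finset.le_sup (f := fun i : D.Γ × ℕ => i.2) hi
  omega

theorem tLo : S_inst P H → S_O P H → S_nu P H → S_mg P H → S_Lo P H := by
  intro hin hO hnu hmg D hD k U c₀ hk hU hne hc₀ hkU
  obtain ⟨-, -, -, h4, -, h6, h7, -, F, hF, hcovF⟩ := hin D hD
  obtain ⟨b, hb, hcov⟩ := Lo_cover P H hO D hD U hU hne F hF
  obtain ⟨hm, hlsc, hpos, -, hint, -, -, -⟩ := hnu D hD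
  obtain ⟨hinv1, hinv2, -, -, -, hcv, -⟩ := hmg D hD
  obtain ⟨-, hone, -, hmon, hcl, hcpt, -⟩ := hO D hD
  obtain ⟨ε, hε, hε2⟩ : ∃ ε : ℝ≥0∞, 0 < ε ∧ ∀ h ∈ D.O ^ b, ε ≤ D.nu (b + 1) h := by
    have hne2 : (closure (D.O ^ b)).Nonempty := ⟨1, subset_closure (hone b)⟩
    obtain ⟨h0, hh0, hmin⟩ := (hlsc (b + 1)).lowerSemicontinuousOn (closure (D.O ^ b))
      |>.exists_isMinOn hne2 (hcpt b)
    refine ⟨D.nu (b + 1) h0, (hpos (b + 1) (by omega) h0).2 (hcl b hh0), fun h hh => ?_⟩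
    exact hmin (subset_closure hh)
  have hbase : ∀ x y, c₀ * ε ≤ D.N (D.tk k (b + 1)) x y := by
    intro x y
    obtain ⟨γ, hγ, hx⟩ := hcovF x
    obtain ⟨γ', hγ', hy⟩ := hcovF y
    rw [← hinv1 (D.tk k (b + 1)) x y ⟨γ, hγ⟩, ← hinv2 (D.tk k (b + 1)) _ y ⟨γ', hγ'⟩]
    obtain ⟨u, h1, h2⟩ := hcov _ hx _ hy
    exact (mul_le_mul' (hkU _ h1) (hε2 _ h2)).trans (ENNReal.le_tsum u)
  refine ⟨b + 1, c₀ * ε, by omega, ENNReal.mul_pos hc₀.ne' hε.ne', fun n hn q q' x y => ?_⟩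
  rw [Lo_shift]
  rcases Nat.eq_or_lt_of_le hn with h | h
  · rw [← h]; exact hbase _ _
  · obtain ⟨j, rfl⟩ : ∃ j, n = (b + 1) + (j + 1) := ⟨n - (b + 1) - 1, by omega⟩
    set x' := x * ((q⁻¹, 1) : P × H)
    set y' := y * ((q', 1) : P × H)
    have e1 : D.N (D.tk k ((b + 1) + (j + 1))) x' y' =
        ∫⁻ h, D.nu (j + 1) h * D.N (D.tk k (b + 1)) x' (y' * ((1 : P), h)) ∂D.μ₂ := by
      unfold Dat.N
      rw [tsum_congr fun u : D.Γ => (hcv k (b + 1) (j + 1) (by omega) (by omega)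
        (x'⁻¹ * (u : P × H) * y')).symm]
      rw [← lintegral_tsum]
      · refine lintegral_congr fun h => ?_
        rw [← ENNReal.tsum_mul_left]
        exact tsum_congr fun u => by rw [mul_assoc (x'⁻¹ * (u : P × H))]
      · intro u
        refine ((hm (j + 1)).mul ?_).aemeasurable
        have : (fun h : H => D.tk k (b + 1) (x'⁻¹ * (u : P × H) * y' * ((1 : P), h))) =
            fun h => k ((x'⁻¹ * (u : P × H) * y').1 * 1) *
              D.nu (b + 1) ((x'⁻¹ * (u : P × H) * y').2 * h) :=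
          rfl
        rw [this]
        exact ((hm (b + 1)).comp (measurable_const_mul _)).const_mul _
    rw [e1]
    calc c₀ * ε = ∫⁻ h, D.nu (j + 1) h * (c₀ * ε) ∂D.μ₂ := by
          rw [lintegral_mul_const _ (hm (j + 1)), hint, one_mul]
      _ ≤ ∫⁻ h, D.nu (j + 1) h * D.N (D.tk k (b + 1)) x' (y' * ((1 : P), h)) ∂D.μ₂ := by
          refine lintegral_mono fun h => ?_
          gcongr
          exact hbase _ _

end Pool.Agent.MPEF
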