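import Pool.Agent.Lib.MP_ef3f0f_gt.Z.Spec

set_option autoImplicit false
set_option linter.unusedSectionVars false

/-! MP_ef3f0f_gt, part 0, module O: the set where the density is positive. -/

namespace Pool.Agent.MPEF

open MeasureTheory Topology
open scoped ENNReal Pointwise

variable (P H : Type) [Group P] [Group H] [TopologicalSpace P] [TopologicalSpace H]
  [IsTopologicalGroup P] [IsTopologicalGroup H] [LocallyCompactSpace P] [LocallyCompactSpace H]
  [T2Space P] [T2Space H] [SecondCountableTopology P] [SecondCountableTopology H]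
  [MeasurableSpace P] [MeasurableSpace H] [BorelSpace P] [BorelSpace H]

theorem tO : S_O P H := by
  intro D hD
  have h1 : (1 : H) ∈ D.O := hD.ν1
  have hopen : IsOpen D.O := isOpen_lt continuous_const hD.νc
  have hinv : (D.O)⁻¹ = D.O := by
    ext h
    have h2 : h ∈ (D.O)⁻¹ ↔ 0 < D.ν h⁻¹ := Iff.rfl
    rw [h2, hD.νi]
    exact Iff.rfl
  have hO : ∀ n, 1 ≤ n → IsOpen (D.O ^ n) := by
    intro n hn
    obtain ⟨m, rfl⟩ : ∃ m, n = m + 1 := ⟨n - 1, by omega⟩
    rw [pow_succ]
    exact hopen.mul_left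
  have hone : ∀ n, (1 : H) ∈ D.O ^ n := fun n => Set.one_mem_pow h1
  have hI : ∀ n, ∀ h ∈ D.O ^ n, h⁻¹ ∈ D.O ^ n := by
    intro n h hh
    rw [← Set.mem_inv, ← inv_pow, hinv]
    exact hh
  have hmono : ∀ m n, m ≤ n → D.O ^ m ⊆ D.O ^ n := fun m n hmn => Set.pow_subset_pow_right h1 hmn
  refine ⟨hO, hone, hI, hmono, ?_, ?_, ?_⟩
  · intro n h hh
    have h3 : IsOpen ((fun x => h⁻¹ * x) ⁻¹' D.O) := hopen.preimage (continuous_const_mul _)
    obtain ⟨w, hw1, hw2⟩ := mem_closure_iff.1 hh _ h3 (by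
      show h⁻¹ * h ∈ D.O
      rw [inv_mul_cancel]
      exact h1)
    have h4 : (h⁻¹ * w)⁻¹ ∈ D.O := by
      rw [← Set.mem_inv, hinv]
      exact hw1
    rw [pow_succ]
    refine ⟨w, hw2, _, h4, ?_⟩
    show w * (h⁻¹ * w)⁻¹ = h
    group
  · intro n
    obtain ⟨K, hK, hK0⟩ := hD.νK
    have hOK : D.O ⊆ K := by
      intro h hh
      by_contra hc
      have h5 : (0 : ℝ≥0∞) < D.ν h := hh
      rw [hK0 h hc] at h5
      exact lt_irrefl _ h5
    have hKn : ∀ m, IsCompact (K ^ m) := by
      intro m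
      induction m with
      | zero =>
        rw [pow_zero]
        exact isCompact_singleton
      | succ m ih =>
        rw [pow_succ]
        exact ih.mul hK
    exact (hKn n).of_isClosed_subset isClosed_closure
      (closure_minimal (Set.pow_subset_pow_left hOK) (hKn n).isClosed)
  · intro K hK
    obtain ⟨n, hn⟩ := hK.elim_directed_cover (fun n : ℕ => D.O ^ (n + 1)) (fun n => hO _ (by omega))
      (fun h _ => by
        obtain ⟨n, hn⟩ := hD.νgen h
        exact Set.mem_iUnion.2 ⟨n, hmono _ _ (by omega) hn⟩)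
      (Monotone.directed_le fun a b hab => hmono _ _ (by omega))
    exact ⟨n + 1, hn⟩

end Pool.Agent.MPEF
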