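import Pool.Agent.Lib.MP_ef3f0f_gt.Z.Spec

set_option autoImplicit false

/-!
# MP_ef3f0f_gt, module Z/disc: discrete subgroups meet compact sets in finite sets
-/

namespace Pool.Agent.MPEF

open MeasureTheory Topology
open scoped ENNReal Pointwise

theorem tdisc : S_disc := by
  intro G _ _ _ _ _ Γ hΓ K hK
  have h1 : Filter.Tendsto ((↑) : Γ → G) Filter.cofinite (Filter.cocompact G) :=
    Γ.tendsto_coe_cofinite_of_discrete ⟨hΓ⟩
  have h2 : ((↑) : Γ → G) ⁻¹' Kᶜ ∈ Filter.cofinite := h1 hK.compl_mem_cocompact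
  rw [Filter.mem_cofinite] at h2
  refine (h2.image ((↑) : Γ → G)).subset ?_
  rintro γ ⟨hγ, hγK⟩
  exact ⟨⟨γ, hγ⟩, by simpa using hγK, rfl⟩

end Pool.Agent.MPEF
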