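import Pool.Agent.Lib.MP_ef3f0f_gt.Z.Spec

set_option autoImplicit false

namespace Pool.Agent.MPEF

open MeasureTheory Topology
open scoped ENNReal Pointwise

variable (P H : Type) [Group P] [Group H] [TopologicalSpace P] [TopologicalSpace H]
  [IsTopologicalGroup P] [IsTopologicalGroup H] [LocallyCompactSpace P] [LocallyCompactSpace H]
  [T2Space P] [T2Space H] [SecondCountableTopology P] [SecondCountableTopology H]
  [MeasurableSpace P] [MeasurableSpace H] [BorelSpace P] [BorelSpace H]

private theorem mg_N1 (D : Dat P H) (K : P × H → ℝ≥0∞) (x y : P × H) (γ : D.Γ) :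
    D.N K ((γ : P × H) * x) y = D.N K x y := by
  unfold Dat.N
  rw [← (Equiv.mulLeft γ).tsum_eq fun u : D.Γ => K (((γ : P × H) * x)⁻¹ * (u : P × H) * y)]
  apply tsum_congr
  intro u
  congr 1
  simp only [Equiv.coe_mulLeft, Subgroup.coe_mul]
  group

private theorem mg_N2 (D : Dat P H) (K : P × H → ℝ≥0∞) (x y : P × H) (γ : D.Γ) :
    D.N K x ((γ : P × H) * y) = D.N K x y := by
  unfold Dat.N
  rw [← (Equiv.mulRight γ⁻¹).tsum_eq fun u : D.Γ => K (x⁻¹ * (u : P × H) * ((γ : P × H) * y))]
  apply tsum_congr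
  intro u
  congr 1
  simp only [Equiv.coe_mulRight, Subgroup.coe_mul, Subgroup.coe_inv]
  group

theorem tmg : S_inst P H → S_nu P H → S_unf P H → S_mg P H := by
  intro hinst hnu hunf D hD
  obtain ⟨i1, i2, i3, i4, i5, i6, i7, i8, _⟩ := hinst D hD
  obtain ⟨n1, _, _, n4, _, n6, _, _⟩ := hnu D hD
  have hunf' := hunf D hD
  have hl2 : D.μ₂.IsMulLeftInvariant := by
    have := hD.haar₂
    infer_instance
  refine ⟨mg_N1 P H D, mg_N2 P H D, ?_, ?_, ?_, ?_, ?_, ?_⟩
  · intro K hK
    unfold Dat.N
    apply Measurable.ennreal_tsum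
    intro u
    apply hK.comp
    exact (measurable_fst.inv.mul_const _).mul measurable_snd
  · intro K K' hK hK' x y F
    -- the functions f_u
    set f : D.Γ → P × H → ℝ≥0∞ := fun u z => K (x⁻¹ * z) * K' (z⁻¹ * (u : P × H) * y) * F u with hf
    have hfm : ∀ u, Measurable (f u) := by
      intro u
      apply Measurable.mul _ measurable_const
      apply Measurable.mul
      · exact hK.comp (measurable_const_mul _)
      · exact hK'.comp ((measurable_inv.mul_const _).mul_const _)
    have e1 : (fun z : P × H => ∑' e : D.Γ, ∑' e' : D.Γ,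
        K (x⁻¹ * (e : P × H) * z) * K' (z⁻¹ * (e' : P × H) * y) * F (e * e')) =
        fun z => ∑' u : D.Γ, ∑' e : D.Γ, f u ((e : P × H) * z) := by
      funext z
      rw [ENNReal.tsum_comm (f := fun u e : D.Γ => f u ((e : P × H) * z))]
      apply tsum_congr
      intro e
      rw [← (Equiv.mulLeft e⁻¹).tsum_eq fun e' : D.Γ =>
        K (x⁻¹ * (e : P × H) * z) * K' (z⁻¹ * (e' : P × H) * y) * F (e * e')]
      apply tsum_congr
      intro u
      simp only [hf, Equiv.coe_mulLeft, Subgroup.coe_mul, Subgroup.coe_inv, mul_inv_cancel_left,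
        mul_inv_rev, mul_assoc]
    rw [e1]
    have e2 : D.IM (fun z => ∑' u : D.Γ, ∑' e : D.Γ, f u ((e : P × H) * z)) =
        ∑' u : D.Γ, D.IM (fun z => ∑' e : D.Γ, f u ((e : P × H) * z)) := by
      unfold Dat.IM
      rw [← lintegral_tsum]
      · apply lintegral_congr
        intro z
        rw [ENNReal.tsum_mul_left]
      · intro u
        apply Measurable.aemeasurable
        apply hD.χm.mul
        apply Measurable.ennreal_tsum
        intro e
        exact (hfm u).comp (measurable_const_mul _)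
    rw [e2]
    apply tsum_congr
    intro u
    rw [hunf' (f u) (hfm u)]
    rw [← lintegral_mul_left_eq_self (μ := D.μ) (f u) x]
    rw [← lintegral_mul_const]
    · apply lintegral_congr
      intro q
      simp only [hf, inv_mul_cancel_left, mul_inv_rev, mul_assoc]
    · apply hK.mul
      exact hK'.comp (measurable_inv.mul_const _)
  · intro k k' n m hk hk' hn hm g
    unfold Dat.tk Dat.μ
    have e1 : ∀ q : P × H, k q.1 * D.nu n q.2 * (k' (q⁻¹ * g).1 * D.nu m (q⁻¹ * g).2) =
        (k q.1 * k' (q.1⁻¹ * g.1)) * (D.nu n q.2 * D.nu m (q.2⁻¹ * g.2)) := by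
      intro q
      simp only [Prod.fst_mul, Prod.snd_mul, Prod.fst_inv, Prod.snd_inv]
      ring
    simp only [e1]
    rw [lintegral_prod_mul (f := fun q => k q * k' (q⁻¹ * g.1))
      (g := fun h => D.nu n h * D.nu m (h⁻¹ * g.2))]
    · rw [n6 n m hn hm]
    · apply Measurable.aemeasurable
      exact hk.mul (hk'.comp (measurable_inv.mul_const _))
    · apply Measurable.aemeasurable
      exact (n1 n).mul ((n1 m).comp (measurable_inv.mul_const _))
  · intro k n m hn hm g
    unfold Dat.tk
    have e1 : ∀ h : H, D.nu m h * (k (g * ((1 : P), h)).1 * D.nu n (g * ((1 : P), h)).2) =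
        k g.1 * (D.nu m h * D.nu n (g.2 * h)) := by
      intro h
      simp only [Prod.fst_mul, Prod.snd_mul, mul_one]
      ring
    simp only [e1]
    rw [lintegral_const_mul]
    · congr 1
      rw [← n6 n m hn hm g.2]
      rw [← lintegral_mul_left_eq_self (μ := D.μ₂) (fun q => D.nu n q * D.nu m (q⁻¹ * g.2)) g.2]
      apply lintegral_congr
      intro h
      have e2 : (g.2 * h)⁻¹ * g.2 = h⁻¹ := by group
      rw [e2, n4, mul_comm]
    · exact (n1 m).mul ((n1 n).comp (measurable_const_mul _))
  · intro K hK x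
    have e1 : (fun z => D.N K x z) = fun z => ∑' γ : D.Γ, (fun z => K (x⁻¹ * z)) ((γ : P × H) * z) := by
      funext z
      unfold Dat.N
      apply tsum_congr
      intro u
      simp only [mul_assoc]
    rw [e1, hunf' (fun z => K (x⁻¹ * z)) (hK.comp (measurable_const_mul _))]
    exact lintegral_mul_left_eq_self (μ := D.μ) K x⁻¹
  · intro K hK x
    have e1 : (fun z => D.N K z x) = fun z => ∑' γ : D.Γ, (fun z => K (z⁻¹ * x)) ((γ : P × H) * z) := by
      funext z
      unfold Dat.N
      rw [← (Equiv.inv D.Γ).tsum_eq fun u : D.Γ => K (z⁻¹ * (u : P × H) * x)]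
      apply tsum_congr
      intro u
      simp only [Equiv.inv_apply, Subgroup.coe_inv, mul_inv_rev]
    rw [e1, hunf' (fun z => K (z⁻¹ * x)) (hK.comp (measurable_inv.mul_const _))]
    rw [lintegral_inv_eq_self (μ := D.μ) (fun z => K (z * x))]
    exact lintegral_mul_right_eq_self (μ := D.μ) K x

end Pool.Agent.MPEF
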