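import Pool.Agent.Lib.MP_ef3f0f_gt.Z.Spec

set_option autoImplicit false
set_option linter.unusedSectionVars false

/-! Unfolding. -/

namespace Pool.Agent.MPEF

open MeasureTheory Topology
open scoped ENNReal Pointwise

variable (P H : Type) [Group P] [Group H] [TopologicalSpace P] [TopologicalSpace H]
  [IsTopologicalGroup P] [IsTopologicalGroup H] [LocallyCompactSpace P] [LocallyCompactSpace H]
  [T2Space P] [T2Space H] [SecondCountableTopology P] [SecondCountableTopology H]
  [MeasurableSpace P] [MeasurableSpace H] [BorelSpace P] [BorelSpace H]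

theorem tunf : S_inst P H → S_unf P H := by
  intro hi D hD f hf
  obtain ⟨-, -, -, h4, -, h6, -⟩ := hi D hD
  have hχ := hD.χm
  have e1 : D.IM (fun x => ∑' γ : D.Γ, f ((γ : P × H) * x)) =
      ∑' γ : D.Γ, ∫⁻ x, D.χ x * f ((γ : P × H) * x) ∂D.μ := by
    unfold Dat.IM
    rw [← lintegral_tsum]
    · simp_rw [ENNReal.tsum_mul_left]
    · intro γ
      exact (hχ.mul (hf.comp (measurable_const_mul _))).aemeasurable
  have e2 : ∀ γ : D.Γ, ∫⁻ x, D.χ x * f ((γ : P × H) * x) ∂D.μ =
      ∫⁻ x, D.χ (((γ⁻¹ : D.Γ) : P × H) * x) * f x ∂D.μ := by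
    intro γ
    rw [← lintegral_mul_left_eq_self (fun x => D.χ (((γ⁻¹ : D.Γ) : P × H) * x) * f x)
      (γ : P × H)]
    refine lintegral_congr fun x => ?_
    rw [Subgroup.coe_inv, inv_mul_cancel_left]
  have e3 : ∀ x, ∑' γ : D.Γ, D.χ (((γ⁻¹ : D.Γ) : P × H) * x) = 1 := by
    intro x
    rw [← hD.χs x]
    exact (Equiv.inv D.Γ).tsum_eq (fun γ : D.Γ => D.χ ((γ : P × H) * x))
  rw [e1, tsum_congr e2, ← lintegral_tsum]
  · refine lintegral_congr fun x => ?_
    rw [ENNReal.tsum_mul_right, e3, one_mul]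
  · intro γ
    exact ((hχ.comp (measurable_const_mul _)).mul hf).aemeasurable

end Pool.Agent.MPEF
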